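import Pool.Agent.Helper99.MKV.GoalsC

/-!
# MRT: the charges of a harmonic function move little (project MKV)
-/

open Finset

namespace Pool.Agent.Helper67.MKV

open Pool.Agent.Helper99.MKV Pool.Agent.Helper99.ERW
open Pool.Agent.Helper99.EXC (La Df nm Bx hk Scl)

lemma nmnn (x : Site 2) : 0 ≤ nm x := (abs_nonneg _).trans (le_max_left _ _)

lemma bxm (b : ℕ) {k l : ℕ} (h : k ≤ l) : Bx b k ⊆ Bx b l := by
  intro x hx
  unfold Bx at *
  rw [mem_box] at *
  intro i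
  have h1 := hx i
  have h2 : b * 2 ^ k ≤ b * 2 ^ l := Nat.mul_le_mul_left b (Nat.pow_le_pow_right (by norm_num) h)
  have h3 : ((b * 2 ^ k : ℕ) : ℤ) ≤ ((b * 2 ^ l : ℕ) : ℤ) := by exact_mod_cast h2
  exact h1.trans h3

lemma bxs {b s : ℕ} (hb : 1 ≤ b) {x : Site 2} (hx : x ∈ Bx b (s + 1)) (e : Dir 2) :
    x + vec e ∈ Bx b (s + 2) := by
  unfold Bx at *
  rw [mem_box] at *
  intro i
  have h1 := hx i
  have h2 : b * 2 ^ (s + 1) + 1 ≤ b * 2 ^ (s + 2) := by
    have h4 : 1 ≤ 2 ^ (s + 1) := Nat.one_le_two_pow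
    have h5 : 1 ≤ b * 2 ^ (s + 1) := Nat.one_le_iff_ne_zero.mpr (by positivity)
    calc b * 2 ^ (s + 1) + 1 ≤ b * 2 ^ (s + 1) + b * 2 ^ (s + 1) := by omega
      _ = b * 2 ^ (s + 2) := by ring
  have h3 : ((b * 2 ^ (s + 1) : ℕ) : ℤ) + 1 ≤ ((b * 2 ^ (s + 2) : ℕ) : ℤ) := by exact_mod_cast h2
  calc |(x + vec e) i| = |x i + vec e i| := rfl
    _ ≤ |x i| + |vec e i| := abs_add_le _ _
    _ ≤ ((b * 2 ^ (s + 1) : ℕ) : ℤ) + 1 := add_le_add h1 (abs_vec_le e i)
    _ ≤ _ := h3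

section

variable {E ι : Type} [Fintype ι] {U : Sys E ι}

lemma Dr_const (hU : U.Ok) (c : ℝ) (t : MSt E) : Dr U (fun _ => c) t = 0 := by
  unfold Dr
  rw [stp_const hU]
  ring

/-- the squares of a martingale `D` whose increments are bounded by `c` -/
lemma Dr_sq (hU : U.Ok) (D : MSt E → ℝ) (t : MSt E) (h0 : Dr U D t = 0) (c : ℝ) (hc : 0 ≤ c)
    (h : ∀ i e, |D (nxt U t i e) - D t| ≤ c) : Dr U (fun t => D t ^ 2) t ≤ c ^ 2 := by
  have h1 : (fun t => D t ^ 2) = fun t => D t * D t := by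
    funext t
    ring
  rw [h1, Dr_mul hU, h0]
  have h2 := Gam_abs_le hU hc h h
  have h3 := le_abs_self (Gam U D D t)
  nlinarith

end

/-- Packet MRT. -/
theorem MRT (hSMS : SMS_stmt) (hDRG : DRG_stmt) (hINC : INC_stmt) (hVIS : VIS_stmt) :
    MRT_stmt := by
  intro κ C b B hκ hC hb hB
  obtain ⟨C0, hC0, hcard, hsq, hlin, -⟩ := hSMS b hb
  obtain ⟨C1, hC1, hvis⟩ := hVIS κ C b B hκ hC hb hB
  have hB0 : (0 : ℝ) ≤ B := le_trans zero_le_one hB
  have hCC : (0 : ℝ) ≤ C := le_trans zero_le_one hC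
  have hC00 : (0 : ℝ) ≤ C0 := le_trans zero_le_one hC0
  set G0 : ℝ := κ + C + 4 * B * C * C0 with hG0
  have hG00 : 0 ≤ G0 := by positivity
  refine ⟨C1 * (G0 * (4 * B ^ 2 * C ^ 2 * C0)) + C1 * (8 * B ^ 2 * C ^ 3 * C0 ^ 2 * (1 + 2 * B)),
    by positivity, ?_⟩
  intro E ι _ U a S T φ Φ k1 hD hSx hTb hT k s hkk hks N s0
  have hok := hD.ok
  have hpow2 : (0 : ℝ) < 2 ^ k := by positivity
  have hpow4 : (0 : ℝ) < 4 ^ k := by positivity
  have h42 : (4 : ℝ) ^ k = 2 ^ k * 2 ^ k := by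
    rw [← mul_pow]
    norm_num
  have hpow1 : (1 : ℝ) ≤ 2 ^ k := one_le_pow₀ (by norm_num)
  have hs0 : (0 : ℝ) ≤ (s : ℝ) := Nat.cast_nonneg s
  by_cases hin : s0.1 ∈ Bx b (s + 1)
  swap
  · rw [Rw_out _ N _ hin]
    positivity
  set w : MSt E → ℝ := VV T (Bx b k) (hk Φ k) with hw
  set D : MSt E → ℝ := fun t => w t - w s0 with hDdef
  set q : MSt E → ℝ := VV S (Bx b (s + 1)) (Df (Φ k)) with hq
  set M0 : ℝ := κ * s + C + 2 * B * C * C0 * (s + 1) with hM0
  set g : MSt E → ℝ := fun t => (M0 - Φ k t.1) + q t with hg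
  have hsub : Bx b k ⊆ Bx b (s + 1) := bxm b (by omega)
  have hsub2 : Bx b (s + 1) ⊆ Bx b (s + 2) := bxm b (by omega)
  -- the drift of `D`
  have hDrw : ∀ t, Dr U w t = 0 := by
    intro t
    rw [hw, (hDRG E ι U hok t).1 T (Bx b k) (hk Φ k)]
    split_ifs
    · rw [hT]
      ring
    · rfl
  have hDrD : ∀ t, Dr U D t = 0 := by
    intro t
    rw [hDdef, Dr_sub w (fun _ => w s0), hDrw, Dr_const hok]
    ring
  -- increments of `D`
  have hΔD : ∀ t i e, |D (nxt U t i e) - D t| ≤ if t.1 ∈ Bx b k then 2 * B * C / 4 ^ k else 0 := by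
    intro t i e
    have h1 : D (nxt U t i e) - D t = w (nxt U t i e) - w t := by
      simp only [hDdef]
      ring
    rw [h1, hw, (hINC E ι U t i e).1 T (Bx b k) (hk Φ k)]
    split_ifs with hx
    · rw [abs_mul]
      have h2 := hSx.h1 k hkk t.1
      have h3 : |T t.1 (U.nx t.1 (t.2 t.1) i) - T t.1 (t.2 t.1)| ≤ 2 * B := by
        have h4 := abs_sub (T t.1 (U.nx t.1 (t.2 t.1) i)) (T t.1 (t.2 t.1))
        have h5 := hTb t.1 (U.nx t.1 (t.2 t.1) i)
        have h6 := hTb t.1 (t.2 t.1)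
        linarith
      calc _ ≤ C / 4 ^ k * (2 * B) := mul_le_mul h2 h3 (abs_nonneg _) (by positivity)
        _ = _ := by ring
    · simp
  -- size of `D`
  have hwb : ∀ t, |w t| ≤ C0 * C * B := by
    intro t
    rw [hw]
    unfold VV
    calc |∑ z ∈ Bx b k, hk Φ k z * T z (t.2 z)| ≤ ∑ z ∈ Bx b k, |hk Φ k z * T z (t.2 z)| :=
          abs_sum_le_sum_abs _ _
      _ ≤ ∑ z ∈ Bx b k, C / 4 ^ k * B := by
          refine sum_le_sum fun z _ => ?_
          rw [abs_mul]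
          exact mul_le_mul (hSx.h1 k hkk z) (hTb z _) (abs_nonneg _) (by positivity)
      _ = ((Bx b k).card : ℝ) * (C / 4 ^ k * B) := by rw [sum_const, nsmul_eq_mul]
      _ ≤ (C0 * 4 ^ k) * (C / 4 ^ k * B) := mul_le_mul_of_nonneg_right (hcard k) (by positivity)
      _ = C0 * C * B := by
          field_simp
  have hDb : ∀ t, |D t| ≤ 2 * (C0 * C * B) := by
    intro t
    have h1 := abs_sub (w t) (w s0)
    have h2 := hwb t
    have h3 := hwb s0
    simp only [hDdef]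
    linarith
  -- drift of `D ^ 2`
  have hDr2 : ∀ t, Dr U (fun t => D t ^ 2) t ≤
      if t.1 ∈ Bx b k then (2 * B * C / 4 ^ k) ^ 2 else 0 := by
    intro t
    have h1 := Dr_sq hok D t (hDrD t) (if t.1 ∈ Bx b k then 2 * B * C / 4 ^ k else 0)
      (by split_ifs <;> positivity) (hΔD t)
    split_ifs with hx
    · rw [if_pos hx] at h1
      exact h1
    · rw [if_neg hx] at h1
      simpa using h1
  -- size of `q`
  have hqb : ∀ t, |q t| ≤ 2 * B * C * C0 * (s + 1) := by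
    intro t
    rw [hq]
    unfold VV
    have h0 := hsq (s + 1) 0
    calc |∑ z ∈ Bx b (s + 1), Df (Φ k) z * S z (t.2 z)|
        ≤ ∑ z ∈ Bx b (s + 1), |Df (Φ k) z * S z (t.2 z)| := abs_sum_le_sum_abs _ _
      _ ≤ ∑ z ∈ Bx b (s + 1), B * C * (1 / (1 + nm (z - 0)) ^ 2) := by
          refine sum_le_sum fun z _ => ?_
          rw [abs_mul, sub_zero]
          have h1 := hSx.dphi2 k hkk z
          have h2 := hD.bd z (t.2 z)
          have h3 : 0 ≤ nm z := nmnn z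
          calc _ ≤ C / (1 + nm z) ^ 2 * B := mul_le_mul h1 h2 (abs_nonneg _) (by positivity)
            _ = _ := by ring
      _ = B * C * ∑ z ∈ Bx b (s + 1), 1 / (1 + nm (z - 0)) ^ 2 := by rw [mul_sum]
      _ ≤ B * C * (C0 * (((s + 1 : ℕ) : ℝ) + 1)) := mul_le_mul_of_nonneg_left h0 (by positivity)
      _ ≤ 2 * B * C * C0 * (s + 1) := by
          push_cast
          have : B * C * (C0 * ((s : ℝ) + 1 + 1)) ≤ B * C * (C0 * (2 * ((s : ℝ) + 1))) := by
            refine mul_le_mul_of_nonneg_left (mul_le_mul_of_nonneg_left (by linarith) hC00)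
              (by positivity)
          linarith
  -- `0 ≤ g ≤ G0 (s + 1)` on the larger box
  have hg0 : ∀ t, t.1 ∈ Bx b (s + 2) → 0 ≤ g t := by
    intro t ht
    have h1 := hSx.up k s hkk hks t.1 ht
    have h2 := abs_le.mp (hqb t)
    simp only [hg, hM0]
    linarith [h2.1]
  have hg1 : ∀ t, t.1 ∈ Bx b (s + 2) → g t ≤ G0 * (s + 1) := by
    intro t _
    have h1 := hSx.low k t.1
    have h2 := abs_le.mp (hqb t)
    have h3 : 0 ≤ κ * (k : ℝ) := by positivity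
    simp only [hg, hM0, hG0]
    nlinarith [h2.2, mul_nonneg hCC hs0]
  -- drift of `g`
  have hDrg : ∀ t, t.1 ∈ Bx b (s + 1) → Dr U g t = -La a (Φ k) t.1 := by
    intro t ht
    have h1 : Dr U q t = Df (Φ k) t.1 * dd U a t := by
      rw [hq, (hDRG E ι U hok t).1 S (Bx b (s + 1)) (Df (Φ k)), if_pos ht, hD.ps]
      rfl
    have h2 : Dr U (fun t => Φ k t.1) t = La a (Φ k) t.1 + dd U a t * Df (Φ k) t.1 := by
      unfold Dr
      rw [stp_pos hok a (Φ k) t]
      ring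
    rw [hg, Dr_add (fun t => M0 - Φ k t.1) q, Dr_sub (fun _ => M0) (fun t => Φ k t.1),
      Dr_const hok, h1, h2]
    ring
  -- increments of `g`
  have hΔg : ∀ t i e, t.1 ∈ Bx b (s + 1) →
      |g (nxt U t i e) - g t| ≤ C / (1 + nm t.1) + 2 * B * C / 4 ^ k := by
    intro t i e ht
    have h1 : g (nxt U t i e) - g t =
        -(Φ k (t.1 + vec e) - Φ k t.1) + (q (nxt U t i e) - q t) := by
      simp only [hg, nxt_fst]
      ring
    rw [h1]
    have h2 := hSx.gradP k hkk t.1 e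
    have h3 : |q (nxt U t i e) - q t| ≤ 2 * B * C / 4 ^ k := by
      rw [hq, (hINC E ι U t i e).1 S (Bx b (s + 1)) (Df (Φ k)), if_pos ht, abs_mul]
      have h4 := hSx.dphi1 k hkk t.1
      have h5 : |S t.1 (U.nx t.1 (t.2 t.1) i) - S t.1 (t.2 t.1)| ≤ 2 * B := by
        have h6 := abs_sub (S t.1 (U.nx t.1 (t.2 t.1) i)) (S t.1 (t.2 t.1))
        have h7 := hD.bd t.1 (U.nx t.1 (t.2 t.1) i)
        have h8 := hD.bd t.1 (t.2 t.1)
        linarith
      calc _ ≤ C / 4 ^ k * (2 * B) := mul_le_mul h4 h5 (abs_nonneg _) (by positivity)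
        _ = _ := by ring
    calc _ ≤ |-(Φ k (t.1 + vec e) - Φ k t.1)| + |q (nxt U t i e) - q t| := abs_add_le _ _
      _ ≤ _ := by
          rw [abs_neg]
          exact add_le_add h2 h3
  -- increments of `D ^ 2`
  have hΔD2 : ∀ t i e, |D (nxt U t i e) ^ 2 - D t ^ 2| ≤
      if t.1 ∈ Bx b k then 8 * B ^ 2 * C ^ 2 * C0 / 4 ^ k else 0 := by
    intro t i e
    have h1 : D (nxt U t i e) ^ 2 - D t ^ 2 =
        (D (nxt U t i e) - D t) * (D (nxt U t i e) + D t) := by ring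
    have h2 := hΔD t i e
    have h3 : |D (nxt U t i e) + D t| ≤ 4 * (C0 * C * B) := by
      have h4 := abs_add_le (D (nxt U t i e)) (D t)
      have h5 := hDb (nxt U t i e)
      have h6 := hDb t
      linarith
    rw [h1, abs_mul]
    split_ifs with hx
    · rw [if_pos hx] at h2
      calc _ ≤ 2 * B * C / 4 ^ k * (4 * (C0 * C * B)) :=
            mul_le_mul h2 h3 (abs_nonneg _) (by positivity)
        _ = _ := by ring
    · rw [if_neg hx] at h2
      have h7 : |D (nxt U t i e) - D t| = 0 := le_antisymm h2 (abs_nonneg _)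
      rw [h7, zero_mul]
  -- the carre du champ
  have hGam : ∀ t, t.1 ∈ Bx b (s + 1) → |Gam U (fun t => D t ^ 2) g t| ≤
      if t.1 ∈ Bx b k then 8 * B ^ 2 * C ^ 2 * C0 / 4 ^ k *
        (C / (1 + nm t.1) + 2 * B * C / 4 ^ k) else 0 := by
    intro t ht
    have h1 := Gam_abs_le hok (F := fun t => D t ^ 2) (G := g) (s := t)
      (c := if t.1 ∈ Bx b k then 8 * B ^ 2 * C ^ 2 * C0 / 4 ^ k else 0)
      (c' := C / (1 + nm t.1) + 2 * B * C / 4 ^ k) (by split_ifs <;> positivity)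
      (fun i e => hΔD2 t i e) (fun i e => hΔg t i e ht)
    split_ifs with hx
    · rw [if_pos hx] at h1
      exact h1
    · rw [if_neg hx, zero_mul] at h1
      exact h1
  -- the identity
  have hD0 : D s0 = 0 := by simp [hDdef]
  have hid := tele_Dr (U := U) (Bx b (s + 1)) N (fun t => D t ^ 2 * g t) s0
  have hE : 0 ≤ Ex U (Bx b (s + 1)) N (fun t => D t ^ 2 * g t) s0 := by
    have h1 := Ex_mono_inv (U := U) (Bx b (s + 1)) hok N (F := fun _ => 0)
      (G := fun t => D t ^ 2 * g t) (I := fun t => t.1 ∈ Bx b (s + 2))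
      (fun t _ ht i e => bxs hb ht e)
      (fun t ht => mul_nonneg (sq_nonneg _) (hg0 t ht)) s0 (hsub2 hin)
    rwa [Ex_const _ hok] at h1
  have hcong : Rw U (Bx b (s + 1)) N (Dr U (fun t => D t ^ 2 * g t)) s0 =
      Rw U (Bx b (s + 1)) N (fun t => (g t * Dr U (fun t => D t ^ 2) t +
        Gam U (fun t => D t ^ 2) g t) - La a (Φ k) t.1 * D t ^ 2) s0 := by
    refine Rw_congr _ N (fun t ht => ?_) s0
    rw [Dr_mul hok (fun t => D t ^ 2) g t, hDrg t ht]
    ring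
  rw [hcong, Rw_sub _ N (fun t => g t * Dr U (fun t => D t ^ 2) t +
    Gam U (fun t => D t ^ 2) g t) (fun t => La a (Φ k) t.1 * D t ^ 2), hD0] at hid
  have hmain : Rw U (Bx b (s + 1)) N (fun t => La a (Φ k) t.1 * D t ^ 2) s0 ≤
      Rw U (Bx b (s + 1)) N (fun t => g t * Dr U (fun t => D t ^ 2) t +
        Gam U (fun t => D t ^ 2) g t) s0 := by
    have : (0 : ℝ) ^ 2 * g s0 = 0 := by ring
    linarith
  refine hmain.trans ?_
  rw [Rw_add _ N (fun t => g t * Dr U (fun t => D t ^ 2) t) (fun t => Gam U (fun t => D t ^ 2) g t)]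
  -- first term
  have hf1 : Rw U (Bx b (s + 1)) N (fun t => g t * Dr U (fun t => D t ^ 2) t) s0 ≤
      C1 * (G0 * (4 * B ^ 2 * C ^ 2 * C0)) * (s + 1) ^ 2 / 2 ^ k := by
    have h1 : Rw U (Bx b (s + 1)) N (fun t => g t * Dr U (fun t => D t ^ 2) t) s0 ≤
        Rw U (Bx b (s + 1)) N (fun t => (fun x => if x ∈ Bx b k then
          G0 * (s + 1) * (2 * B * C / 4 ^ k) ^ 2 else 0) t.1) s0 := by
      refine Rw_mono _ hok N (fun t ht => ?_) s0
      have h2 := hg0 t (hsub2 ht)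
      have h3 := hg1 t (hsub2 ht)
      have h4 := hDr2 t
      show g t * Dr U (fun t => D t ^ 2) t ≤ if t.1 ∈ Bx b k then
          G0 * (s + 1) * (2 * B * C / 4 ^ k) ^ 2 else 0
      split_ifs with hx
      · rw [if_pos hx] at h4
        calc _ ≤ g t * (2 * B * C / 4 ^ k) ^ 2 := mul_le_mul_of_nonneg_left h4 h2
          _ ≤ _ := mul_le_mul_of_nonneg_right h3 (sq_nonneg _)
      · rw [if_neg hx] at h4
        exact mul_nonpos_of_nonneg_of_nonpos h2 h4
    have h5 := hvis E ι U a S φ Φ k1 hD hSx s (hkk.trans hks) N s0 (fun x => if x ∈ Bx b k then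
          G0 * (s + 1) * (2 * B * C / 4 ^ k) ^ 2 else 0)
          (fun x => by split_ifs <;> positivity)
    have h6 : ∑ x ∈ Bx b (s + 1), (if x ∈ Bx b k then
          G0 * (s + 1) * (2 * B * C / 4 ^ k) ^ 2 else 0) ≤
          G0 * (s + 1) * (4 * B ^ 2 * C ^ 2 * C0) / 2 ^ k := by
      rw [← sum_filter, filter_mem_eq_inter, inter_eq_right.mpr hsub, sum_const, nsmul_eq_mul]
      calc ((Bx b k).card : ℝ) * (G0 * (s + 1) * (2 * B * C / 4 ^ k) ^ 2)
          ≤ (C0 * 4 ^ k) * (G0 * (s + 1) * (2 * B * C / 4 ^ k) ^ 2) :=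
            mul_le_mul_of_nonneg_right (hcard k) (by positivity)
        _ = G0 * (s + 1) * (4 * B ^ 2 * C ^ 2 * C0) / 4 ^ k := by
            field_simp
            ring
        _ ≤ G0 * (s + 1) * (4 * B ^ 2 * C ^ 2 * C0) / 2 ^ k := by
            refine div_le_div_of_nonneg_left (by positivity) hpow2 ?_
            rw [h42]
            nlinarith
    calc _ ≤ _ := h1
      _ ≤ _ := h5
      _ ≤ C1 * (s + 1) * (G0 * (s + 1) * (4 * B ^ 2 * C ^ 2 * C0) / 2 ^ k) :=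
          mul_le_mul_of_nonneg_left h6 (by positivity)
      _ = _ := by ring
  -- second term
  have hf2 : Rw U (Bx b (s + 1)) N (fun t => Gam U (fun t => D t ^ 2) g t) s0 ≤
      C1 * (8 * B ^ 2 * C ^ 3 * C0 ^ 2 * (1 + 2 * B)) * (s + 1) ^ 2 / 2 ^ k := by
    have h1 : Rw U (Bx b (s + 1)) N (fun t => Gam U (fun t => D t ^ 2) g t) s0 ≤
        Rw U (Bx b (s + 1)) N (fun t => (fun x => if x ∈ Bx b k then
          8 * B ^ 2 * C ^ 2 * C0 / 4 ^ k * (C / (1 + nm x) + 2 * B * C / 4 ^ k) else 0) t.1) s0 := by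
      refine Rw_mono _ hok N (fun t ht => ?_) s0
      exact (le_abs_self _).trans (hGam t ht)
    have h5 := hvis E ι U a S φ Φ k1 hD hSx s (hkk.trans hks) N s0 (fun x => if x ∈ Bx b k then
          8 * B ^ 2 * C ^ 2 * C0 / 4 ^ k * (C / (1 + nm x) + 2 * B * C / 4 ^ k) else 0)
          (fun x => by
            have := nmnn x
            split_ifs <;> positivity)
    have h6 : ∑ x ∈ Bx b (s + 1), (if x ∈ Bx b k then
          8 * B ^ 2 * C ^ 2 * C0 / 4 ^ k * (C / (1 + nm x) + 2 * B * C / 4 ^ k) else 0) ≤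
          8 * B ^ 2 * C ^ 3 * C0 ^ 2 * (1 + 2 * B) / 2 ^ k := by
      rw [← sum_filter, filter_mem_eq_inter, inter_eq_right.mpr hsub, ← mul_sum, sum_add_distrib,
        sum_const, nsmul_eq_mul]
      have h7 : ∑ x ∈ Bx b k, C / (1 + nm x) ≤ C * (C0 * 2 ^ k) := by
        have h8 := hlin k 0
        simp only [sub_zero] at h8
        calc ∑ x ∈ Bx b k, C / (1 + nm x) = C * ∑ x ∈ Bx b k, 1 / (1 + nm x) := by
              rw [mul_sum]
              refine sum_congr rfl fun x _ => ?_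
              ring
          _ ≤ _ := mul_le_mul_of_nonneg_left h8 hCC
      have h9 : ((Bx b k).card : ℝ) * (2 * B * C / 4 ^ k) ≤ 2 * B * C * C0 * 2 ^ k := by
        calc _ ≤ (C0 * 4 ^ k) * (2 * B * C / 4 ^ k) :=
              mul_le_mul_of_nonneg_right (hcard k) (by positivity)
          _ = 2 * B * C * C0 * 1 := by
              field_simp
          _ ≤ _ := mul_le_mul_of_nonneg_left hpow1 (by positivity)
      calc 8 * B ^ 2 * C ^ 2 * C0 / 4 ^ k * (∑ x ∈ Bx b k, C / (1 + nm x) +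
            ((Bx b k).card : ℝ) * (2 * B * C / 4 ^ k))
          ≤ 8 * B ^ 2 * C ^ 2 * C0 / 4 ^ k * (C * (C0 * 2 ^ k) + 2 * B * C * C0 * 2 ^ k) :=
            mul_le_mul_of_nonneg_left (add_le_add h7 h9) (by positivity)
        _ = _ := by
            rw [h42]
            field_simp
    calc _ ≤ _ := h1
      _ ≤ _ := h5
      _ ≤ C1 * (s + 1) * (8 * B ^ 2 * C ^ 3 * C0 ^ 2 * (1 + 2 * B) / 2 ^ k) :=
          mul_le_mul_of_nonneg_left h6 (by positivity)
      _ ≤ C1 * (s + 1) * (8 * B ^ 2 * C ^ 3 * C0 ^ 2 * (1 + 2 * B) / 2 ^ k) * (s + 1) :=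
          le_mul_of_one_le_right (by positivity) (by linarith)
      _ = _ := by ring
  calc _ ≤ C1 * (G0 * (4 * B ^ 2 * C ^ 2 * C0)) * (s + 1) ^ 2 / 2 ^ k +
        C1 * (8 * B ^ 2 * C ^ 3 * C0 ^ 2 * (1 + 2 * B)) * (s + 1) ^ 2 / 2 ^ k := add_le_add hf1 hf2
    _ = _ := by ring

end Pool.Agent.Helper67.MKV
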